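import Mathlib
import Pool.Agent.Run7.h499.AlmostAll

set_option autoImplicit false

/-! # For almost all exponents the equation `S(n) = 2 ^ e` has many solutions

For all real `A` and `δ < 1` and all large `x`, all but at most `x exp (-(log x) ^ δ)` of the exponents
`e ≤ x` have at least `(log x) ^ A` solutions `n` of `S(n) = 2 ^ e`. -/

namespace Pool.Agent.Results.MP_f82aec_nt.AlmostAllExponents

open Filter

/-- the number of odd sequences of length `n` -/
noncomputable def S (n : ℕ) : ℕ :=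
  Set.ncard {a : Fin n → ZMod 2 | ∀ k : ℕ, k < n →
    (∑ i : Fin n, ∑ j : Fin n, (if (j : ℕ) = (i : ℕ) + k then a i * a j else 0)) = 1}

theorem result (A δ : ℝ) (hδ : δ < 1) : ∀ᶠ x : ℕ in atTop,
    (({e : ℕ | 1 ≤ e ∧ e ≤ x ∧
      {n : ℕ | S n = 2 ^ e}.encard < (⌈(Real.log x) ^ A⌉₊ : ℕ∞)}.ncard : ℕ) : ℝ) ≤
      x * Real.exp (-((Real.log x) ^ δ)) :=
  Run7.h499.almost_all A δ hδ

end Pool.Agent.Results.MP_f82aec_nt.AlmostAllExponents
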