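import Mathlib
import Pool.Agent.Run7.h499.Four

set_option autoImplicit false

/-! # The equation `S(n) = 2 ^ e` has the fewest solutions for `e = 2`

For every `e ≥ 1` the equation `S(n) = 2 ^ e` has at least as many solutions `n` as the equation
`S(n) = 4`, and the number of the solutions of `S(n) = 4` is the number of the primes `p ≡ 7 mod 8` such
that `2` has order `p (p - 1) / 2` modulo `p ^ 2` (equivalently, `-2` is a primitive root modulo `p ^ 2`).
So Q1 (for all `e`) is equivalent to its case `e = 2`, and to the infinitude of these primes. -/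

namespace Pool.Agent.Results.MP_f82aec_nt.CaseTwoIsExtremal

/-- the number of odd sequences of length `n` -/
noncomputable def S (n : ℕ) : ℕ :=
  Set.ncard {a : Fin n → ZMod 2 | ∀ k : ℕ, k < n →
    (∑ i : Fin n, ∑ j : Fin n, (if (j : ℕ) = (i : ℕ) + k then a i * a j else 0)) = 1}

theorem good_iff (p : ℕ) : Run7.h499.Good p ↔
    p.Prime ∧ p % 8 = 7 ∧ orderOf (2 : ZMod (p ^ 2)) = p * (p - 1) / 2 := by
  unfold Run7.h499.Good
  refine and_congr_right fun _ => and_congr_right fun h => ?_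
  rw [Nat.mul_div_assoc _ (by omega : 2 ∣ p - 1)]

theorem inj_of (e : ℕ) (he : 1 ≤ e) (p q : ℕ) (hp : Run7.h499.Good p) (hq : Run7.h499.Good q)
    (h : (p ^ e + 1) / 2 = (q ^ e + 1) / 2) : p = q := by
  have h1 : Odd (p ^ e) := Odd.pow (by have := hp.2.1; rw [Nat.odd_iff]; omega)
  have h2 : Odd (q ^ e) := Odd.pow (by have := hq.2.1; rw [Nat.odd_iff]; omega)
  obtain ⟨a, ha⟩ := h1
  obtain ⟨b, hb⟩ := h2
  exact Nat.pow_left_injective (n := e) (by omega) (by simp only; omega)

theorem result :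
    (∀ e : ℕ, 1 ≤ e → {n : ℕ | S n = 2 ^ 2}.encard ≤ {n : ℕ | S n = 2 ^ e}.encard) ∧
    {n : ℕ | S n = 2 ^ 2}.encard =
      {p : ℕ | p.Prime ∧ p % 8 = 7 ∧ orderOf (2 : ZMod (p ^ 2)) = p * (p - 1) / 2}.encard := by
  have key : {n : ℕ | S n = 2 ^ 2}.encard =
      {p : ℕ | p.Prime ∧ p % 8 = 7 ∧ orderOf (2 : ZMod (p ^ 2)) = p * (p - 1) / 2}.encard := by
    symm
    have h1 : {n : ℕ | S n = 2 ^ 2} = (fun p => (p ^ 2 + 1) / 2) ''
        {p : ℕ | p.Prime ∧ p % 8 = 7 ∧ orderOf (2 : ZMod (p ^ 2)) = p * (p - 1) / 2} := by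
      ext n
      constructor
      · intro hn
        obtain ⟨p, hp, h⟩ := Run7.h499.good_of_four hn
        refine ⟨p, (good_iff p).1 hp, ?_⟩
        simp only
        have : 0 < p ^ 2 := pow_pos hp.1.pos _
        omega
      · rintro ⟨p, hp, rfl⟩
        exact ((good_iff p).2 hp).S 2
    rw [h1, Set.InjOn.encard_image]
    intro p hp q hq h
    exact inj_of 2 (by norm_num) p q ((good_iff p).2 hp) ((good_iff q).2 hq) h
  refine ⟨fun e he => ?_, key⟩
  rw [key]
  refine (le_of_eq ?_).trans (Set.encard_le_encard (s := (fun p => (p ^ e + 1) / 2) ''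
    {p : ℕ | p.Prime ∧ p % 8 = 7 ∧ orderOf (2 : ZMod (p ^ 2)) = p * (p - 1) / 2}) ?_)
  · symm
    apply Set.InjOn.encard_image
    intro p hp q hq h
    exact inj_of e he p q ((good_iff p).2 hp) ((good_iff q).2 hq) h
  · rintro n ⟨p, hp, rfl⟩
    exact ((good_iff p).2 hp).S e

end Pool.Agent.Results.MP_f82aec_nt.CaseTwoIsExtremal
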