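import Mathlib
import Pool.Agent.Run7.h499.Many

set_option autoImplicit false

/-! # Either no exponent or many exponents have infinitely many solutions

Either for every `e ≥ 1` the equation `S(n) = 2 ^ e` has only finitely many solutions, or for every `ε > 0` and
all large `x` it has infinitely many solutions for at least `x ^ (1/2 - ε)` of the exponents `e ≤ x`. -/

namespace Pool.Agent.Results.MP_f82aec_nt.NoneOrMany

open Filter

/-- the number of odd sequences of length `n` -/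
noncomputable def S (n : ℕ) : ℕ :=
  Set.ncard {a : Fin n → ZMod 2 | ∀ k : ℕ, k < n →
    (∑ i : Fin n, ∑ j : Fin n, (if (j : ℕ) = (i : ℕ) + k then a i * a j else 0)) = 1}

theorem result :
    (∀ e : ℕ, 1 ≤ e → {n : ℕ | S n = 2 ^ e}.Finite) ∨
    (∀ ε : ℝ, 0 < ε → ∀ᶠ x : ℕ in atTop, (x : ℝ) ^ (1 / 2 - ε) ≤
      (({e : ℕ | (1 ≤ e ∧ e ≤ x) ∧ {n : ℕ | S n = 2 ^ e}.Infinite}.ncard : ℕ) : ℝ)) := by
  by_cases h : ∃ e : ℕ, 1 ≤ e ∧ {n : ℕ | S n = 2 ^ e}.Infinite
  · exact Or.inr fun ε hε => Run7.h499.many_main h ε hε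
  · left
    intro e he
    by_contra hinf
    exact h ⟨e, he, hinf⟩

end Pool.Agent.Results.MP_f82aec_nt.NoneOrMany
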