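import Mathlib
import Pool.Agent.Run7.h499.PowMain

set_option autoImplicit false

/-! # For almost all exponents the equation `S(n) = 2 ^ e` has a power of solutions

For all real `A` and `c < 1 / 2` and all large `x`, all but at most `x / (log x) ^ A` of the exponents
`e ≤ x` have at least `x ^ c` solutions `n` of `S(n) = 2 ^ e`. -/

namespace Pool.Agent.Results.MP_f82aec_nt.PowerManySolutions

open Filter

/-- the number of odd sequences of length `n` -/
noncomputable def S (n : ℕ) : ℕ :=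
  Set.ncard {a : Fin n → ZMod 2 | ∀ k : ℕ, k < n →
    (∑ i : Fin n, ∑ j : Fin n, (if (j : ℕ) = (i : ℕ) + k then a i * a j else 0)) = 1}

theorem result (c A : ℝ) (hc : c < 1 / 2) : ∀ᶠ x : ℕ in atTop,
    (({e : ℕ | 1 ≤ e ∧ e ≤ x ∧
      {n : ℕ | S n = 2 ^ e}.encard < (⌈(x : ℝ) ^ c⌉₊ : ℕ∞)}.ncard : ℕ) : ℝ) ≤
      x / (Real.log x) ^ A :=
  Run7.h499.power_half c A hc

end Pool.Agent.Results.MP_f82aec_nt.PowerManySolutions
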